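import Pool.Agent.Helper35.PI.St2

/-! # Project PI (MP_b2fa09_gt), module `C3`: the reparametrised flow is a graphical solution -/

set_option autoImplicit false

namespace Helper92.PI

open scoped ContDiff Manifold Topology BigOperators
open MeasureTheory Set Filter
open Helper35.PI

section General

variable {E F : Type*} [NormedAddCommGroup E] [NormedSpace ℝ E] [NormedAddCommGroup F]
  [InnerProductSpace ℝ F]

lemma fderiv_perp {g : E → F} {z : E} {a : F}
    (h : ∀ᶠ z' in 𝓝 z, (inner ℝ (g z') a : ℝ) = 0) (hg : DifferentiableAt ℝ g z) (d : E) :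
    (inner ℝ (fderiv ℝ g z d) a : ℝ) = 0 := by
  have h1 : HasFDerivAt (fun z' => (innerSL ℝ a) (g z')) ((innerSL ℝ a).comp (fderiv ℝ g z)) z :=
    (innerSL ℝ a).hasFDerivAt.comp z hg.hasFDerivAt
  have h2 : (fun z' => (innerSL ℝ a) (g z')) =ᶠ[𝓝 z] fun _ => (0 : ℝ) := by
    filter_upwards [h] with z' hz'
    rw [innerSL_apply_apply, real_inner_comm]
    exact hz'
  have h3 : HasFDerivAt (fun _ : E => (0 : ℝ)) ((innerSL ℝ a).comp (fderiv ℝ g z)) z :=
    h1.congr_of_eventuallyEq h2.symm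
  have h4 := h3.unique (hasFDerivAt_const (0 : ℝ) z)
  have h5 := congrArg (fun A : E →L[ℝ] ℝ => A d) h4
  simp only [ContinuousLinearMap.comp_apply, innerSL_apply_apply, zero_apply] at h5
  rw [real_inner_comm]
  exact h5

end General

variable {n N : ℕ}

lemma mem_span_ee (A : EE n →ₗ[ℝ] EE N) (w : EE n) :
    A w ∈ Submodule.span ℝ (range fun i : Fin n => A (ee i)) := by
  have h := (EuclideanSpace.basisFun (Fin n) ℝ).sum_repr w
  rw [← h, map_sum]
  refine Submodule.sum_mem _ fun i _ => ?_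
  rw [map_smul]
  refine Submodule.smul_mem _ _ (Submodule.subset_span ⟨i, ?_⟩)
  simp [ee]

lemma dv1_eq_jg {h : EE n × ℝ → EE N} {z : EE n × ℝ} (hd : DifferentiableAt ℝ h z) (i : Fin n) :
    dv1 (fun y => h (y, z.2)) z.1 i = jg h z i := by
  have h1 : HasFDerivAt (fun y : EE n => h (y, z.2))
      ((fderiv ℝ h z).comp (ContinuousLinearMap.inl ℝ (EE n) ℝ)) z.1 :=
    HasFDerivAt.comp z.1 (f := fun y : EE n => (y, z.2)) (g := h) hd.hasFDerivAt
      (hasFDerivAt_prodMk_left z.1 z.2)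
  rw [dv1, h1.fderiv, jg]
  simp

lemma inner_ee (i j : Fin n) : (inner ℝ (ee i : EE n) (ee j) : ℝ) = if i = j then 1 else 0 := by
  have h := orthonormal_iff_ite.1 (EuclideanSpace.basisFun (Fin n) ℝ).orthonormal i j
  simpa [ee] using h

theorem hC3 (hNR : StNR) (hSM : StSM) (hI1 : StI1) : StC3 := by
  intro n N f y₀ t₀ L ψ hf hLI hrange hpde hψ hψ0 hperp u hu
  classical
  have h5le : (5 : WithTop ℕ∞) ≤ ∞ := WithTop.coe_le_coe.2 (le_top : (5 : ℕ∞) ≤ ⊤)
  -- the map `Ψ`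
  set Ψ : EE n × ℝ → EE n × ℝ := fun z => (ψ z, z.2) with hΨ
  have hΨ0 : Ψ (0, t₀) = (y₀, t₀) := by simp [hΨ, hψ0]
  have hΨs : ContDiffAt ℝ ∞ Ψ ((0 : EE n), t₀) := hψ.prodMk contDiffAt_snd
  have hΨc : Tendsto Ψ (𝓝 ((0 : EE n), t₀)) (𝓝 (y₀, t₀)) := by
    have := hΨs.continuousAt
    rwa [ContinuousAt, hΨ0] at this
  set h : EE n × ℝ → EE N := fun z => f (Ψ z) with hh
  have hhs : ContDiffAt ℝ ∞ h ((0 : EE n), t₀) := by
    have hf' : ContDiffAt ℝ ∞ f (Ψ (0, t₀)) := by rw [hΨ0]; exact hf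
    exact hf'.comp _ hΨs
  have hgrf : ∀ t, grf (f (y₀, t₀)) L u t = fun x => h (x, t) := by
    intro t; funext x; simp only [grf, hu, hh, hΨ]; abel
  set Lc : EE n × ℝ →L[ℝ] EE N :=
    L.toContinuousLinearMap.comp (ContinuousLinearMap.fst ℝ (EE n) ℝ) with hLc
  have hLca : ∀ d : EE n × ℝ, Lc d = L d.1 := fun d => rfl
  have hu' : u = fun z => h z - f (y₀, t₀) - Lc z := hu
  have hus : ContDiffAt ℝ ∞ u ((0 : EE n), t₀) := by
    rw [hu']; exact (hhs.sub contDiffAt_const).sub Lc.contDiff.contDiffAt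
  have hud : ∀ z, DifferentiableAt ℝ h z → HasFDerivAt u (fderiv ℝ h z - Lc) z := by
    intro z hz; rw [hu']; exact (hz.hasFDerivAt.sub_const _).sub Lc.hasFDerivAt
  -- finite smoothness in a neighbourhood
  have hu5 : ∀ᶠ z in 𝓝 ((0 : EE n), t₀), ContDiffAt ℝ 5 u z :=
    (hus.of_le h5le).eventually (by simp)
  have hh5 : ∀ᶠ z in 𝓝 ((0 : EE n), t₀), ContDiffAt ℝ 5 h z :=
    (hhs.of_le h5le).eventually (by simp)
  have hψ5 : ∀ᶠ z in 𝓝 ((0 : EE n), t₀), ContDiffAt ℝ 5 ψ z :=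
    (hψ.of_le h5le).eventually (by simp)
  have hf5 : ∀ᶠ z in 𝓝 (y₀, t₀), ContDiffAt ℝ 5 f z :=
    (hf.of_le h5le).eventually (by simp)
  have hf5' : ∀ᶠ z in 𝓝 ((0 : EE n), t₀), ContDiffAt ℝ 5 f (Ψ z) := hΨc.eventually hf5
  -- derivatives of `u`
  have hjgu : ∀ᶠ z in 𝓝 ((0 : EE n), t₀), ∀ i, jg u z i = jg h z i - L (ee i) := by
    filter_upwards [hh5] with z hz i
    rw [jg, jg, (hud z (hz.differentiableAt (by norm_num))).fderiv]
    rfl
  have hjtu : ∀ᶠ z in 𝓝 ((0 : EE n), t₀), jt u z = jt h z := by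
    filter_upwards [hh5] with z hz
    rw [jt, jt, (hud z (hz.differentiableAt (by norm_num))).fderiv, sub_apply, hLca]
    simp
  have hjggu : ∀ᶠ z in 𝓝 ((0 : EE n), t₀), ∀ i j, jgg u z i j = jgg h z i j := by
    filter_upwards [hjgu.eventually_nhds] with z hz i j
    have e : (fun z' => jg u z' j) =ᶠ[𝓝 z] fun z' => jg h z' j - L (ee j) := by
      filter_upwards [hz] with z' hz'
      exact hz' j
    rw [jgg, jg, e.fderiv_eq, fderiv_sub_const]
    rfl
  -- orthogonality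
  have hP0 : ∀ᶠ z in 𝓝 ((0 : EE n), t₀), ∀ v : EE n, (inner ℝ (u z) (L v) : ℝ) = 0 := by
    filter_upwards [hperp] with z hz v
    rw [hu]; exact hz v
  have hP1 : ∀ᶠ z in 𝓝 ((0 : EE n), t₀), ∀ (d : EE n × ℝ) (v : EE n),
      (inner ℝ (fderiv ℝ u z d) (L v) : ℝ) = 0 := by
    filter_upwards [hP0.eventually_nhds, hu5] with z hz hz5 d v
    exact fderiv_perp (hz.mono fun z' h => h v) (hz5.differentiableAt (by norm_num)) d
  have hP2 : ∀ᶠ z in 𝓝 ((0 : EE n), t₀), ∀ (d d' : EE n × ℝ) (v : EE n),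
      (inner ℝ (fderiv ℝ (fun z' => fderiv ℝ u z' d) z d') (L v) : ℝ) = 0 := by
    filter_upwards [hP1.eventually_nhds, hu5] with z hz hz5 d d' v
    have hz4 : ContDiffAt ℝ 4 (fderiv ℝ u) z := hz5.fderiv_right (by norm_num)
    refine fderiv_perp (hz.mono fun z' h => h d v) ?_ d'
    exact (hz4.differentiableAt (by norm_num)).clm_apply (differentiableAt_const d)
  -- chain rule
  have hchain : ∀ᶠ z in 𝓝 ((0 : EE n), t₀), ∀ d : EE n × ℝ,
      fderiv ℝ h z d = fderiv ℝ f (Ψ z) (fderiv ℝ ψ z d, d.2) := by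
    filter_upwards [hf5', hψ5] with z hz1 hz2 d
    have h1 : HasFDerivAt Ψ ((fderiv ℝ ψ z).prod (ContinuousLinearMap.snd ℝ (EE n) ℝ)) z :=
      (hz2.differentiableAt (by norm_num)).hasFDerivAt.prodMk hasFDerivAt_snd
    have h2 : HasFDerivAt h _ z := (hz1.differentiableAt (by norm_num)).hasFDerivAt.comp z h1
    rw [h2.fderiv]
    rfl
  have hspan : ∀ᶠ z in 𝓝 ((0 : EE n), t₀), ∀ w : EE n, fderiv ℝ f (Ψ z) (w, 0) ∈
      Submodule.span ℝ (range fun i => dv1 (fun y => f (y, z.2)) (ψ z) i) := by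
    filter_upwards [hf5'] with z hz w
    have h1 := mem_span_ee ((fderiv ℝ f (Ψ z)).comp (ContinuousLinearMap.inl ℝ (EE n) ℝ)).toLinearMap w
    have e : (fun i : Fin n => ((fderiv ℝ f (Ψ z)).comp
        (ContinuousLinearMap.inl ℝ (EE n) ℝ)).toLinearMap (ee i)) =
        fun i => dv1 (fun y => f (y, z.2)) (ψ z) i := by
      funext i
      have h2 := dv1_eq_jg (hz.differentiableAt (by norm_num)) i
      exact h2.symm
    rw [e] at h1
    exact h1
  -- first derivatives at the base point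
  have hdu0 : ∀ i : Fin n, jg u ((0 : EE n), t₀) i = 0 := by
    intro i
    have h1 := hchain.self_of_nhds (ee i, 0)
    have h2 := hspan.self_of_nhds (fderiv ℝ ψ (0, t₀) (ee i, 0))
    rw [hψ0] at h2
    rw [← hrange] at h2
    have h3 : jg h ((0 : EE n), t₀) i ∈ LinearMap.range L.toLinearMap := by
      rw [jg, h1]; exact h2
    have h4 : jg u ((0 : EE n), t₀) i ∈ LinearMap.range L.toLinearMap := by
      rw [hjgu.self_of_nhds i]
      exact Submodule.sub_mem _ h3 ⟨ee i, rfl⟩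
    obtain ⟨w, hw⟩ := h4
    have h5 := hP1.self_of_nhds (ee i, 0) w
    have h6 : (inner ℝ (jg u ((0 : EE n), t₀) i) (jg u ((0 : EE n), t₀) i) : ℝ) = 0 := by
      nth_rewrite 2 [← hw]
      exact h5
    exact inner_self_eq_zero.1 h6
  have hLIh : LI (fun y => h (y, t₀)) (0 : EE n) := by
    have h1 : LinearIndependent ℝ (fun i : Fin n => L (ee i)) := by
      have h2 := ((EuclideanSpace.basisFun (Fin n) ℝ).orthonormal.comp_linearIsometry L).linearIndependent
      have e : (L ∘ (EuclideanSpace.basisFun (Fin n) ℝ)) = fun i : Fin n => L (ee i) := by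
        funext i; simp [ee]
      rwa [e] at h2
    have e : (fun i : Fin n => dv1 (fun y => h (y, t₀)) (0 : EE n) i) = fun i : Fin n => L (ee i) := by
      funext i
      have h3 := dv1_eq_jg (h := h) (z := ((0 : EE n), t₀))
        (hh5.self_of_nhds.differentiableAt (by norm_num)) i
      have h4 := hjgu.self_of_nhds i
      rw [hdu0 i] at h4
      have h5 : jg h ((0 : EE n), t₀) i = L (ee i) := (sub_eq_zero.1 h4.symm)
      exact h3.trans h5
    rw [LI, e]
    exact h1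
  have hSMh := (hSM n N h ((0 : EE n), t₀) hhs hLIh).1
  -- invariance
  have hinv : ∀ᶠ z in 𝓝 ((0 : EE n), t₀),
      mcv (fun y => h (y, z.2)) z.1 = mcv (fun y => f (y, z.2)) (ψ z) ∧
      nsq (fun y => h (y, z.2)) z.1 = nsq (fun y => f (y, z.2)) (ψ z) ∧
      zsq (fun y => h (y, z.2)) z.1 = zsq (fun y => f (y, z.2)) (ψ z) ∧
      Submodule.span ℝ (range fun i => dv1 (fun y => h (y, z.2)) z.1 i) =
        Submodule.span ℝ (range fun i => dv1 (fun y => f (y, z.2)) (ψ z) i) := by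
    filter_upwards [hSMh, hf5', hψ5] with z hz hz1 hz2
    have c1 : ContDiffAt ℝ 2 (fun y => f (y, z.2)) (ψ z) := by
      have h1 : ContDiffAt ℝ 2 f (ψ z, z.2) := hz1.of_le (by norm_num)
      exact h1.comp (ψ z) (contDiffAt_id.prodMk contDiffAt_const)
    have c2 : ContDiffAt ℝ 2 (fun y => ψ (y, z.2)) z.1 := by
      have h1 : ContDiffAt ℝ 2 ψ (z.1, z.2) := hz2.of_le (by norm_num)
      exact h1.comp z.1 (contDiffAt_id.prodMk contDiffAt_const)
    have h3 := hI1 n N (fun y => f (y, z.2)) (fun y => h (y, z.2)) (fun y => ψ (y, z.2)) z.1 c1 c2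
      (Filter.EventuallyEq.refl _ _) hz.1
    exact h3.2
  refine ⟨⟨hus, hP0, ?_, hdu0, ?_⟩, ?_⟩
  · rw [hu]
    simp [hψ0]
  · filter_upwards [hSMh, hinv, hjgu, hjtu, hjggu, hP1, hP2, hchain, hspan, hΨc.eventually hpde] with
      z hz hzi hzg hzt hzgg hz1 hz2 hzc hzs hzp
    rw [hgrf]
    obtain ⟨hLIz, -, hdv1, hdv2, -⟩ := hz
    obtain ⟨hm, -, -, hsp⟩ := hzi
    obtain ⟨-, -, hN3, -, -, -, -, -⟩ := hNR n N (fun y => h (y, z.2)) z.1 hLIz
    set S := Submodule.span ℝ (range fun i => dv1 (fun y => h (y, z.2)) z.1 i) with hS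
    have k1 : (∑ i, ∑ j, (gram (fun y => h (y, z.2)) z.1)⁻¹ i j • jgg u z i j)
        - mcv (fun y => h (y, z.2)) z.1 ∈ S := by
      rw [mcv, ← Finset.sum_sub_distrib]
      refine Submodule.sum_mem _ fun i _ => ?_
      rw [← Finset.sum_sub_distrib]
      refine Submodule.sum_mem _ fun j _ => ?_
      rw [← smul_sub, sff, hzgg i j, ← hdv2 i j]
      exact Submodule.smul_mem _ _ (hN3 _)
    have k2 : jt u z - mcv (fun y => h (y, z.2)) z.1 ∈ S := by
      have e1 : jt u z = fderiv ℝ f (Ψ z) (fderiv ℝ ψ z (0, 1), 0) + jt f (Ψ z) := by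
        rw [hzt, jt, hzc, jt, ← map_add]
        simp
      have e2 : jt f (Ψ z) = mcv (fun y => h (y, z.2)) z.1 := by
        rw [hm]; exact hzp
      rw [e1, e2, add_sub_cancel_right, hsp]
      exact hzs _
    have k3 : jt u z - (∑ i, ∑ j, (gram (fun y => h (y, z.2)) z.1)⁻¹ i j • jgg u z i j) ∈ S := by
      have := Submodule.sub_mem _ k2 k1
      simpa using this
    set w := jt u z - (∑ i, ∑ j, (gram (fun y => h (y, z.2)) z.1)⁻¹ i j • jgg u z i j) with hw
    have k4 : ∀ v : EE n, (inner ℝ w (L v) : ℝ) = 0 := by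
      intro v
      rw [hw, inner_sub_left, sum_inner]
      have a1 : (inner ℝ (jt u z) (L v) : ℝ) = 0 := hz1 (0, 1) v
      rw [a1, zero_sub, neg_eq_zero]
      refine Finset.sum_eq_zero fun i _ => ?_
      rw [sum_inner]
      refine Finset.sum_eq_zero fun j _ => ?_
      rw [inner_smul_left]
      have a2 : (inner ℝ (jgg u z i j) (L v) : ℝ) = 0 := hz2 (ee j, 0) (ee i, 0) v
      rw [a2, mul_zero]
    have k5 : w = 0 := by
      have e : (fun i : Fin n => dv1 (fun y => h (y, z.2)) z.1 i) = fun i : Fin n => L (ee i) + jg u z i := by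
        funext i
        rw [hdv1 i, hzg i]; abel
      rw [hS, e] at k3
      obtain ⟨c, hc⟩ := (Submodule.mem_span_range_iff_exists_fun ℝ).1 k3
      have hc0 : ∀ j, c j = 0 := by
        intro j
        have a3 := k4 (ee j)
        rw [← hc, sum_inner] at a3
        have a4 : ∀ i ∈ Finset.univ, (inner ℝ (c i • (L (ee i) + jg u z i)) (L (ee j)) : ℝ) =
            if i = j then c i else 0 := by
          intro i _
          rw [inner_smul_left, inner_add_left, L.inner_map_map, inner_ee]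
          have a5 : (inner ℝ (jg u z i) (L (ee j)) : ℝ) = 0 := hz1 (ee i, 0) (ee j)
          rw [a5]
          split_ifs <;> simp
        rw [Finset.sum_congr rfl a4] at a3
        simpa using a3
      rw [← hc]
      simp [hc0]
    rw [hw] at k5
    exact sub_eq_zero.1 k5
  · filter_upwards [hinv] with z hz
    rw [hgrf]
    exact ⟨rfl, hz.1, hz.2.1, hz.2.2.1⟩

end Helper92.PI
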